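import Pool.Agent.R284.RC.Stm

/-!
# Piece RC-SCALE: change of variables by `x ↦ t • (x - a)`
-/

set_option autoImplicit false
open MeasureTheory Set Filter Topology
open scoped ENNReal NNReal

namespace Pool.Agent.R92.RC.SCALE

open Pool.Agent.R284.RC

/-- the similarity. -/
noncomputable def Te {n : ℕ} (t : ℝ) (ht : t ≠ 0) (a : E n) : E n ≃ᵐ E n where
  toFun x := t • (x - a)
  invFun y := t⁻¹ • y + a
  left_inv x := by
    change t⁻¹ • (t • (x - a)) + a = x
    rw [smul_smul, inv_mul_cancel₀ ht, one_smul, sub_add_cancel]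
  right_inv y := by
    change t • ((t⁻¹ • y + a) - a) = y
    rw [add_sub_cancel_right, smul_smul, mul_inv_cancel₀ ht, one_smul]
  measurable_toFun := by
    change Measurable (fun x : E n => t • (x - a))
    fun_prop
  measurable_invFun := by
    change Measurable (fun y : E n => t⁻¹ • y + a)
    fun_prop

lemma Te_apply {n : ℕ} (t : ℝ) (ht : t ≠ 0) (a x : E n) : Te t ht a x = t • (x - a) := rfl

lemma Te_symm_apply {n : ℕ} (t : ℝ) (ht : t ≠ 0) (a y : E n) :
    (Te t ht a).symm y = t⁻¹ • y + a := rfl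

lemma dist_Te {n : ℕ} (t : ℝ) (ht : 0 < t) (a x y : E n) :
    dist (Te t ht.ne' a x) (Te t ht.ne' a y) = t * dist x y := by
  rw [Te_apply, Te_apply, dist_smul₀, Real.norm_of_nonneg ht.le, dist_sub_right]

lemma edist_Te {n : ℕ} (t : ℝ) (ht : 0 < t) (a x y : E n) :
    edist (Te t ht.ne' a x) (Te t ht.ne' a y) = ENNReal.ofReal t * edist x y := by
  rw [edist_dist, dist_Te t ht a, ENNReal.ofReal_mul ht.le, ← edist_dist]

lemma edist_rpow {n : ℕ} (q t : ℝ) (ht : 0 < t) (a x y : E n) :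
    (edist (Te t ht.ne' a x) (Te t ht.ne' a y)) ^ (-q)
      = ENNReal.ofReal (t ^ (-q)) * (edist x y) ^ (-q) := by
  rw [edist_Te t ht, ENNReal.mul_rpow_of_ne_top ENNReal.ofReal_ne_top (edist_ne_top _ _),
    ENNReal.ofReal_rpow_of_pos ht]

lemma Pot_map {n : ℕ} (q t : ℝ) (ht : 0 < t) (a : E n) (ν : Measure (E n)) (x : E n) :
    Pot q (ν.map (Te t ht.ne' a)) (Te t ht.ne' a x)
      = ENNReal.ofReal (t ^ (-q)) * Pot q ν x := by
  unfold Pot
  rw [lintegral_map_equiv]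
  simp only [edist_rpow q t ht a]
  exact lintegral_const_mul' _ _ ENNReal.ofReal_ne_top

lemma Iq_map {n : ℕ} (q t : ℝ) (ht : 0 < t) (a : E n) (ν : Measure (E n)) :
    Iq q (ν.map (Te t ht.ne' a)) = ENNReal.ofReal (t ^ (-q)) * Iq q ν := by
  unfold Iq
  rw [lintegral_map_equiv]
  simp only [Pot_map q t ht a ν]
  exact lintegral_const_mul' _ _ ENNReal.ofReal_ne_top

lemma BS_map {n : ℕ} (μ : Measure (E n)) (h : BS μ) (f : E n → E n) (hf : Measurable f)
    (C D : ℝ) (hC : 0 ≤ C) (hb : ∀ x, ‖f x‖ ≤ C * ‖x‖ + D) : BS (μ.map f) := by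
  obtain ⟨R, hR⟩ := h
  refine ⟨C * R + D, ?_⟩
  rw [Measure.map_apply hf Metric.isClosed_closedBall.measurableSet.compl]
  refine measure_mono_null ?_ hR
  intro x hx hxR
  apply hx
  rw [mem_closedBall_zero_iff] at hxR ⊢
  refine (hb x).trans ?_
  have := mul_le_mul_of_nonneg_left hxR hC
  linarith

lemma norm_Te {n : ℕ} (t : ℝ) (ht : 0 < t) (a x : E n) :
    ‖Te t ht.ne' a x‖ ≤ t * ‖x‖ + t * ‖a‖ := by
  rw [Te_apply, norm_smul, Real.norm_of_nonneg ht.le, ← mul_add]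
  exact mul_le_mul_of_nonneg_left (norm_sub_le _ _) ht.le

lemma norm_Te_symm {n : ℕ} (t : ℝ) (ht : 0 < t) (a y : E n) :
    ‖(Te t ht.ne' a).symm y‖ ≤ t⁻¹ * ‖y‖ + ‖a‖ := by
  rw [Te_symm_apply]
  refine (norm_add_le _ _).trans ?_
  rw [norm_smul, Real.norm_of_nonneg (inv_pos.mpr ht).le]

lemma Cls_symm {n : ℕ} (t : ℝ) (ht : 0 < t) (a : E n) (ν σ : Measure (E n))
    (hσ : σ ∈ Cls (ν.map (Te t ht.ne' a))) : σ.map (Te t ht.ne' a).symm ∈ Cls ν := by
  obtain ⟨h1, ⟨c, hc⟩, h3⟩ := hσ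
  refine ⟨?_, ⟨c, ?_⟩, ?_⟩
  · exact Measure.isProbabilityMeasure_map (Te t ht.ne' a).symm.measurable.aemeasurable
  · have := Measure.map_mono hc (Te t ht.ne' a).symm.measurable
    rw [Measure.map_smul, MeasurableEquiv.map_symm_map] at this
    exact this
  · exact BS_map σ h3 _ (Te t ht.ne' a).symm.measurable _ _ (inv_pos.mpr ht).le
      (norm_Te_symm t ht a)

lemma kr_pos {n : ℕ} (p t : ℝ) (hp : p ≠ 0) (ht : 0 < t) (a x y : E n) :
    kr p (Te t ht.ne' a x) (Te t ht.ne' a y) = t ^ (-p) * kr p x y := by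
  unfold kr
  rw [if_neg hp, if_neg hp, dist_Te t ht a, Real.mul_rpow ht.le dist_nonneg]

lemma kr_zero {n : ℕ} (t : ℝ) (ht : 0 < t) (a x y : E n) (hxy : y ≠ x) :
    kr 0 (Te t ht.ne' a x) (Te t ht.ne' a y) = -Real.log t + kr 0 x y := by
  unfold kr
  rw [if_pos rfl, if_pos rfl, dist_Te t ht a, Real.log_mul ht.ne' (dist_pos.mpr hxy.symm).ne']
  ring

lemma En_map {n : ℕ} (p t : ℝ) (ht : 0 < t) (a : E n) (σ : Measure (E n)) :
    En p (σ.map (Te t ht.ne' a)) (σ.map (Te t ht.ne' a))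
      = ∫ x, ∫ y, kr p (Te t ht.ne' a x) (Te t ht.ne' a y) ∂σ ∂σ := by
  unfold En U
  rw [integral_map_equiv]
  refine integral_congr_ae (Eventually.of_forall fun x => ?_)
  exact integral_map_equiv _ _

lemma En_pos {n : ℕ} (p t : ℝ) (hp : p ≠ 0) (ht : 0 < t) (a : E n) (σ : Measure (E n)) :
    En p (σ.map (Te t ht.ne' a)) (σ.map (Te t ht.ne' a)) = t ^ (-p) * En p σ σ := by
  rw [En_map _ t ht]
  simp only [kr_pos p t hp ht a, integral_const_mul]
  rfl

lemma null_pt {n : ℕ} (q : ℝ) (hq : 0 < q) (σ : Measure (E n)) (h : BP q σ) (x : E n) :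
    σ {x} = 0 := by
  obtain ⟨B, hB⟩ := h
  by_contra hne
  have h1 : ∫⁻ y in {x}, (edist x y) ^ (-q) ∂σ ≤ Pot q σ x := setLIntegral_le_lintegral _ _
  rw [lintegral_singleton, edist_self, ENNReal.zero_rpow_of_neg (by linarith),
    ENNReal.top_mul hne, top_le_iff] at h1
  have h2 := hB x
  rw [h1] at h2
  exact absurd h2 (by simp)

lemma En_zero {n : ℕ} (hInt : S_int) (q t : ℝ) (hq : 0 < q) (ht : 0 < t) (a : E n)
    (σ : Measure (E n)) (hσ : IsProbabilityMeasure σ) (hBP : BP q σ) (hBS : BS σ) :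
    En 0 (σ.map (Te t ht.ne' a)) (σ.map (Te t ht.ne' a)) = -Real.log t + En 0 σ σ := by
  obtain ⟨hI, hI2, -⟩ := hInt n 0 q le_rfl hq σ σ inferInstance inferInstance hBP hBS hBS
  rw [En_map _ t ht]
  have h1 : ∀ x, ∫ y, kr 0 (Te t ht.ne' a x) (Te t ht.ne' a y) ∂σ
      = -Real.log t + U 0 σ x := by
    intro x
    have hae : ∀ᵐ y ∂σ, y ≠ x := by
      rw [ae_iff]
      simpa using null_pt q hq σ hBP x
    have h2 : ∫ y, kr 0 (Te t ht.ne' a x) (Te t ht.ne' a y) ∂σ
        = ∫ y, (-Real.log t + kr 0 x y) ∂σ := by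
      refine integral_congr_ae ?_
      filter_upwards [hae] with y hy
      exact kr_zero t ht a x y hy
    rw [h2, integral_add (integrable_const _) (hI2 x)]
    simp [U]
  simp only [h1]
  have hU : Integrable (fun x => U 0 σ x) σ := hI.integral_prod_left
  rw [integral_add (integrable_const _) hU]
  simp [En]

theorem scale_proof (hInt : S_int) (hCls : S_cls) : S_scale := by
  intro n p q hp hpq ν V hN t ht a
  obtain ⟨hP, hBS, hI, hae, hall, hLow⟩ := hN
  have hq : 0 < q := lt_of_le_of_lt hp hpq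
  have hmap : ν.map (fun x => t • (x - a)) = ν.map (Te t ht.ne' a) := rfl
  rw [hmap]
  have hIq := Iq_map q t ht a ν
  have hBP : BP q ν := by
    refine ⟨(ENNReal.ofReal (2 ^ q) * Iq q ν).toNNReal, fun x => ?_⟩
    rw [ENNReal.coe_toNNReal (ENNReal.mul_lt_top ENNReal.ofReal_lt_top hI).ne]
    exact hall x
  refine ⟨⟨?_, ?_, ?_, ?_, ?_, ?_⟩, hIq⟩
  · exact Measure.isProbabilityMeasure_map (Te t ht.ne' a).measurable.aemeasurable
  · exact BS_map ν hBS _ (Te t ht.ne' a).measurable _ _ ht.le (norm_Te t ht a)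
  · rw [hIq]
    exact ENNReal.mul_lt_top ENNReal.ofReal_lt_top hI
  · rw [(Te t ht.ne' a).measurableEmbedding.ae_map_iff]
    filter_upwards [hae] with x hx
    rw [Pot_map q t ht, hIq]
    gcongr
  · intro y
    obtain ⟨x, rfl⟩ := (Te t ht.ne' a).surjective y
    rw [Pot_map q t ht, hIq, mul_left_comm]
    gcongr
    exact hall x
  · intro σ hσ
    have hσ' := Cls_symm t ht a ν σ hσ
    have hL := hLow _ hσ'
    have hσe : (σ.map (Te t ht.ne' a).symm).map (Te t ht.ne' a) = σ :=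
      MeasurableEquiv.map_map_symm _
    by_cases hp0 : p = 0
    · subst hp0
      rw [if_pos rfl]
      have hBP' := (hCls n q ν inferInstance).2.1 hBP _ hσ'
      have h1 := En_zero hInt q t hq ht a (σ.map (Te t ht.ne' a).symm) hσ'.1 hBP' hσ'.2.2
      rw [hσe] at h1
      rw [h1]
      linarith
    · rw [if_neg hp0]
      have h1 := En_pos p t hp0 ht a (σ.map (Te t ht.ne' a).symm)
      rw [hσe] at h1
      rw [h1]
      exact mul_le_mul_of_nonneg_left hL (Real.rpow_pos_of_pos ht _).le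

end Pool.Agent.R92.RC.SCALE
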